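import Pool.Agent.helper96.S5.SpecR

/-!
# MP_0b485e_lc, row ENU: an infinite r.e. set is enumerated by a computable injective function
-/

set_option autoImplicit false

namespace S5

open PF

theorem ENU_row : ENU_stmt := by
  intro E hE hinf
  obtain ⟨T, hT, _, hTp⟩ := (re_iff _).1 hE
  let b : List ℕ × ℕ → Bool := fun x => T (x.2.unpair.1, x.2.unpair.2) &&
    decide (x.1.length ≤ List.idxOf x.2.unpair.1 x.1)
  have hb : Computable b := by
    have h1 : Computable fun x : List ℕ × ℕ => T (x.2.unpair.1, x.2.unpair.2) := by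
      refine hT.comp ?_
      have h : Computable fun x : List ℕ × ℕ => x.2.unpair := Primrec.unpair.to_comp.comp Computable.snd
      exact (Computable.fst.comp h).pair (Computable.snd.comp h)
    have h2 : Primrec fun x : List ℕ × ℕ => decide (x.1.length ≤ List.idxOf x.2.unpair.1 x.1) := by
      have h : Primrec fun x : List ℕ × ℕ => List.idxOf x.2.unpair.1 x.1 :=
        Primrec.list_idxOf.comp (Primrec.fst.comp (Primrec.unpair.comp Primrec.snd)) Primrec.fst
      exact Primrec₂.comp Primrec.nat_le.decide (Primrec.list_length.comp Primrec.fst) h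
    exact Primrec.and.to_comp.comp h1 h2.to_comp
  have hbt : ∀ (H : List ℕ) (u : ℕ), b (H, u) = true ↔
      T (u.unpair.1, u.unpair.2) = true ∧ u.unpair.1 ∉ H := by
    intro H u
    change (T (u.unpair.1, u.unpair.2) && decide (H.length ≤ List.idxOf u.unpair.1 H)) = true ↔ _
    rw [Bool.and_eq_true, decide_eq_true_eq, ← List.idxOf_lt_length_iff, not_lt]
  have hex : ∀ H : List ℕ, ∃ u, b (H, u) = true := by
    intro H
    obtain ⟨z, hz, hzH⟩ := hinf.exists_notMem_finset H.toFinset
    obtain ⟨n, hn⟩ := (hTp z).1 hz
    refine ⟨Nat.pair z n, (hbt _ _).2 ?_⟩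
    rw [Nat.unpair_pair]
    exact ⟨hn, fun h => hzH (List.mem_toFinset.2 h)⟩
  have h1 : Partrec fun H : List ℕ => Nat.rfind fun n => Part.some (b (H, n)) := by
    apply Partrec.rfind
    exact hb.partrec
  have h2 : Computable fun H : List ℕ => Nat.find (hex H) := by
    refine h1.of_eq fun H => Part.eq_some_iff.2 (Nat.mem_rfind.2 ⟨?_, ?_⟩)
    · have := Nat.find_spec (hex H)
      rw [Part.mem_some_iff]
      exact this.symm
    · intro m hm
      have := Nat.find_min (hex H) hm
      rw [Part.mem_some_iff]
      simpa using this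
  let g : List ℕ → ℕ := fun H => (Nat.find (hex H)).unpair.1
  have hg : Computable g := Computable.fst.comp (Primrec.unpair.to_comp.comp h2)
  have hgE : ∀ H, g H ∈ E := by
    intro H
    have := (hbt _ _).1 (Nat.find_spec (hex H))
    exact (hTp _).2 ⟨_, this.1⟩
  have hgH : ∀ H, g H ∉ H := fun H => ((hbt _ _).1 (Nat.find_spec (hex H))).2
  let Hs : ℕ → List ℕ := fun n => Nat.rec (motive := fun _ => List ℕ) [] (fun _ H => g H :: H) n
  have hHs : Computable Hs := by
    have h3 : Computable₂ fun (_ : ℕ) (y : ℕ × List ℕ) => g y.2 :: y.2 := by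
      have h4 : Computable fun z : ℕ × (ℕ × List ℕ) => z.2.2 := Computable.snd.comp Computable.snd
      exact Computable.list_cons.comp (hg.comp h4) h4
    exact Computable.nat_rec Computable.id (Computable.const []) h3
  have hsucc : ∀ n, Hs (n + 1) = g (Hs n) :: Hs n := fun n => rfl
  let f : ℕ → ℕ := fun n => g (Hs n)
  have hmem : ∀ n k, f n ∈ Hs (n + 1 + k) := by
    intro n k
    induction k with
    | zero => rw [add_zero, hsucc]; exact List.mem_cons_self
    | succ k ih =>
      rw [← add_assoc, hsucc]
      exact List.mem_cons_of_mem _ ih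
  have hinj : Function.Injective f := by
    have key : ∀ m n, m < n → f m ≠ f n := by
      intro m n hmn he
      obtain ⟨k, rfl⟩ := Nat.exists_eq_add_of_lt hmn
      have h := hmem m k
      have h' : f m ∈ Hs (m + k + 1) := by
        have : m + 1 + k = m + k + 1 := by omega
        rw [← this]; exact h
      rw [he] at h'
      exact hgH _ h'
    intro m n he
    rcases lt_trichotomy m n with h | h | h
    · exact absurd he (key m n h)
    · exact h
    · exact absurd he.symm (key n m h)
  have hval : ∀ n, ∀ z ∈ Hs n, z ∈ Set.range f := by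
    intro n
    induction n with
    | zero => intro z hz; exact absurd hz List.not_mem_nil
    | succ n ih =>
      intro z hz
      rw [hsucc] at hz
      rcases List.mem_cons.1 hz with h | h
      · exact ⟨n, h.symm⟩
      · exact ih z h
  refine ⟨f, hg.comp hHs, hinj, Set.Subset.antisymm ?_ ?_⟩
  · rintro _ ⟨n, rfl⟩
    exact hgE _
  · intro z hz
    obtain ⟨n, hn⟩ := (hTp z).1 hz
    by_contra hne
    have h3 : ∀ m, Nat.find (hex (Hs m)) ≤ Nat.pair z n := by
      intro m
      apply Nat.find_min'
      rw [hbt, Nat.unpair_pair]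
      exact ⟨hn, fun h => hne (hval m z h)⟩
    have h4 : Function.Injective fun m : ℕ =>
        (⟨Nat.find (hex (Hs m)), Nat.lt_succ_of_le (h3 m)⟩ : Fin (Nat.pair z n + 1)) := by
      intro m m' he
      have h5 : Nat.find (hex (Hs m)) = Nat.find (hex (Hs m')) := congrArg Fin.val he
      apply hinj
      change (Nat.find (hex (Hs m))).unpair.1 = (Nat.find (hex (Hs m'))).unpair.1
      rw [h5]
    exact not_injective_infinite_finite _ h4

end S5
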