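import Pool.Agent.helper96.S5.SpecV

/-!
# MP_0b485e_lc, row PXL: the meaning of pix
-/

set_option autoImplicit false

namespace S5

open PF

private theorem PXL_fin (P : ℕ → ℕ → Prop) (m : ℕ) (h : ∀ l < m, Lg fun s => P l s) :
    Lg fun s => ∀ l < m, P l s := by
  induction m with
  | zero => exact ⟨0, fun _ _ l hl => absurd hl (Nat.not_lt_zero l)⟩
  | succ m ih =>
    obtain ⟨n1, h1⟩ := ih fun l hl => h l (by omega)
    obtain ⟨n2, h2⟩ := h m (by omega)
    refine ⟨max n1 n2, fun s hs l hl => ?_⟩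
    rcases Nat.lt_or_ge l m with h3 | h3
    · exact h1 s (le_trans (le_max_left _ _) hs) l h3
    · have : l = m := by omega
      subst this
      exact h2 s (le_trans (le_max_right _ _) hs)

theorem PXL_row (hGAM : GAM_stmt) : PXL_stmt := by
  intro X hX i hi
  have hm : 0 < X.m := hX.m0
  have hle : X.pix i ≤ X.m - 1 := lst_le (Q := fun l => l + 1 = X.m ∨ X.bet i l 2) (Or.inl (by omega))
  have hspec : X.pix i + 1 = X.m ∨ X.bet i (X.pix i) 2 :=
    lst_spec (Q := fun l => l + 1 = X.m ∨ X.bet i l 2) ⟨X.m - 1, Or.inl (by omega)⟩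
  refine ⟨by omega, PXL_fin (fun l s => (X.B.lv (X.ls s) l i 1 ∨ X.B.lv (X.ls s) l i 2) ∧
    (l < X.pix i → X.B.lv (X.ls s) l i 1) ∧
    (l = X.pix i → l + 1 < X.m → X.B.lv (X.ls s) l i 2)) X.m fun l hl => ?_⟩
  by_cases h1 : l < X.pix i
  · have h2 : ¬ (l + 1 = X.m ∨ X.bet i l 2) := lst_not (Q := fun l => l + 1 = X.m ∨ X.bet i l 2) h1
    rcases hGAM X hX l hl i hi with h3 | h3
    · obtain ⟨n0, hn⟩ := h3
      exact ⟨n0, fun s hs => ⟨Or.inl (hn s hs), fun _ => hn s hs, fun h => absurd h (by omega)⟩⟩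
    · exact absurd (Or.inr h3) h2
  · by_cases h2 : l = X.pix i ∧ l + 1 < X.m
    · have h3 : X.bet i l 2 := by
        rcases hspec with h4 | h4
        · omega
        · rw [h2.1]; exact h4
      obtain ⟨n0, hn⟩ := h3
      exact ⟨n0, fun s hs => ⟨Or.inr (hn s hs), fun h => absurd h h1, fun _ _ => hn s hs⟩⟩
    · rcases hGAM X hX l hl i hi with h3 | h3
      · obtain ⟨n0, hn⟩ := h3
        exact ⟨n0, fun s hs => ⟨Or.inl (hn s hs), fun h => absurd h h1,
          fun h h' => absurd ⟨h, h'⟩ h2⟩⟩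
      · obtain ⟨n0, hn⟩ := h3
        exact ⟨n0, fun s hs => ⟨Or.inr (hn s hs), fun h => absurd h h1,
          fun h h' => absurd ⟨h, h'⟩ h2⟩⟩

end S5
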